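import Pool.Agent.Helper65.EV.St

/-!
# Project EV, module SEL: choice of the times
-/

set_option autoImplicit false

open MeasureTheory ProbabilityTheory Set Filter
open scoped ENNReal Topology
open Pool.Agent.Helper65.EV Pool.Agent.Helper84.Eve

namespace Pool.Agent.Helper94.EV

private lemma tail_succ (μ : ℕ → ℝ≥0∞) (k : ℕ) :
    ∑' i, μ (k + i) = μ k + ∑' i, μ (k + 1 + i) := by
  rw [tsum_eq_zero_add' ENNReal.summable, add_zero]
  congr 1
  refine tsum_congr fun i => ?_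
  congr 1
  omega

/-- Summation by parts. -/
private lemma abel (μ : ℕ → ℝ≥0∞) (t : ℕ → ℕ) (ht : Monotone t) (h0 : t 0 = 0) (j0 J : ℕ) :
    ∑ i ∈ Finset.range J, μ (j0 + i) * (t (i + 1) : ℝ≥0∞) + (t J : ℝ≥0∞) * ∑' i, μ (j0 + J + i) =
      ∑ j ∈ Finset.range J, ((t (j + 1) - t j : ℕ) : ℝ≥0∞) * ∑' i, μ (j0 + j + i) := by
  induction J with
  | zero => simp [h0]
  | succ J ih =>
    rw [Finset.sum_range_succ, Finset.sum_range_succ, ← ih]
    have h1 : (t (J + 1) : ℝ≥0∞) = ((t (J + 1) - t J : ℕ) : ℝ≥0∞) + (t J : ℝ≥0∞) := by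
      rw [← Nat.cast_add, Nat.sub_add_cancel (ht (Nat.le_succ J))]
    have h2 := tail_succ μ (j0 + J)
    have h3 : ∑' i, μ (j0 + (J + 1) + i) = ∑' i, μ (j0 + J + 1 + i) := by
      refine tsum_congr fun i => ?_
      congr 1
    rw [h3]
    have h4 : ∀ x y z w : ℝ≥0∞, x + y * (w) + w * z = x + w * (y + z) := by
      intro x y z w
      ring
    rw [h4, ← h2]
    nth_rewrite 1 [h1]
    ring

theorem hSEL : hSEL := by
  intro μ τ hτ hfin hμ hsum ε j0 H hε hH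
  set ε' : ℝ≥0∞ := min ε 1 with hε'
  have hε'0 : ε' ≠ 0 := by
    rw [hε']
    exact (lt_min (pos_iff_ne_zero.2 hε) one_pos).ne'
  have hε'le : ε' ≤ ε := min_le_left _ _
  have hε'top : ε' ≠ ∞ := ((min_le_right ε 1).trans_lt ENNReal.one_lt_top).ne
  have hpfin : ∀ j, ε' * τ (j0 + j) ≠ ∞ := fun j => ENNReal.mul_ne_top hε'top (hfin _)
  set f : ℕ → ℕ := fun j => ⌊(ε' * τ (j0 + j)).toReal⌋₊ with hf
  have hfmono : Monotone f := by
    intro i j hij
    apply Nat.floor_mono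
    apply ENNReal.toReal_mono (hpfin j)
    gcongr
    exact hτ (by omega)
  set t : ℕ → ℕ := fun j => match j with
    | 0 => 0
    | j + 1 => f j with ht
  have ht0 : t 0 = 0 := rfl
  have htS : ∀ j, t (j + 1) = f j := fun j => rfl
  have htmono : Monotone t := by
    apply monotone_nat_of_le_succ
    intro j
    cases j with
    | zero => exact Nat.zero_le _
    | succ j => exact hfmono (Nat.le_succ j)
  have hle : ∀ j, (t (j + 1) : ℝ≥0∞) ≤ ε' * τ (j0 + j) := by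
    intro j
    rw [htS, ← ENNReal.ofReal_toReal (hpfin j), ← ENNReal.ofReal_natCast]
    exact ENNReal.ofReal_le_ofReal (Nat.floor_le ENNReal.toReal_nonneg)
  have hge : ∀ j, ε' * τ (j0 + j) ≤ (t (j + 1) : ℝ≥0∞) + 1 := by
    intro j
    rw [htS, ← ENNReal.ofReal_toReal (hpfin j), ← ENNReal.ofReal_natCast, ← ENNReal.ofReal_one,
      ← ENNReal.ofReal_add (Nat.cast_nonneg _) zero_le_one]
    exact ENNReal.ofReal_le_ofReal (Nat.lt_floor_add_one _).le
  -- divergence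
  have hμi : ∀ i, μ i ≠ ∞ := fun i => ne_top_of_le_ne_top hμ (ENNReal.le_tsum i)
  have htail : ∑' i, μ (j0 + i) * τ (j0 + i) = ∞ := by
    by_contra hcon
    have h1 : ∑ i ∈ Finset.range j0, μ i * τ i + ∑' i, μ (i + j0) * τ (i + j0) =
        ∑' i, μ i * τ i :=
      (ENNReal.summable (f := fun i => μ (i + j0) * τ (i + j0))).sum_add_tsum_nat_add'
        (f := fun i => μ i * τ i)
    have h2 : ∑' i, μ (i + j0) * τ (i + j0) = ∑' i, μ (j0 + i) * τ (j0 + i) := by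
      refine tsum_congr fun i => ?_
      rw [add_comm i j0]
    rw [hsum, h2] at h1
    have h3 : ∑ i ∈ Finset.range j0, μ i * τ i ≠ ∞ :=
      (ENNReal.sum_lt_top.2 fun i _ => (ENNReal.mul_ne_top (hμi i) (hfin i)).lt_top).ne
    exact ENNReal.add_ne_top.2 ⟨h3, hcon⟩ h1
  have hμtail : ∑' i, μ (j0 + i) ≠ ∞ := by
    refine ne_top_of_le_ne_top hμ ?_
    exact ENNReal.tsum_comp_le_tsum_of_injective (add_right_injective j0) μ
  have hdiv : ∑' i, μ (j0 + i) * (t (i + 1) : ℝ≥0∞) = ∞ := by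
    by_contra hcon
    have h1 : ∑' i, ε' * (μ (j0 + i) * τ (j0 + i)) ≤
        ∑' i, (μ (j0 + i) * (t (i + 1) : ℝ≥0∞) + μ (j0 + i)) := by
      refine ENNReal.tsum_le_tsum fun i => ?_
      calc ε' * (μ (j0 + i) * τ (j0 + i)) = μ (j0 + i) * (ε' * τ (j0 + i)) := by ring
        _ ≤ μ (j0 + i) * ((t (i + 1) : ℝ≥0∞) + 1) := by gcongr; exact hge i
        _ = _ := by ring
    rw [ENNReal.tsum_mul_left, htail, ENNReal.mul_top hε'0, ENNReal.tsum_add] at h1
    exact ENNReal.add_ne_top.2 ⟨hcon, hμtail⟩ (top_le_iff.1 h1)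
  rw [ENNReal.tsum_eq_iSup_nat] at hdiv
  have hlt : H < ⨆ J, ∑ i ∈ Finset.range J, μ (j0 + i) * (t (i + 1) : ℝ≥0∞) := by
    rw [hdiv]
    exact hH.lt_top
  obtain ⟨J, hJ⟩ := lt_iSup_iff.1 hlt
  refine ⟨J, t, htmono, ht0, fun j => (hle j).trans (by gcongr), ?_⟩
  rw [← abel μ t htmono ht0 j0 J]
  exact hJ.le.trans le_self_add

end Pool.Agent.Helper94.EV
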